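import Pool.Agent.H128W.Mat

set_option autoImplicit false

/-! # MP_d6aa4f_al: a necessary condition for all rings -/

namespace Pool.Agent.Results.MP_d6aa4f_al.CountableInterpolation

open PowerSeries Pool.Agent.H128W

universe u

theorem result (A : Type u) [Ring A] (h : wgldim A⟦X⟧ ≤ 1) (m : ℕ) :
    (∀ a : Matrix (Fin m) (Fin m) A, ∃ t, a * t * a = a) ∧
    ∀ a b : ℕ → Matrix (Fin m) (Fin m) A, (∀ i j, a i * b j = 0) →
      ∃ z : Matrix (Fin m) (Fin m) A, z * z = z ∧ (∀ i, a i * z = 0) ∧ ∀ j, z * b j = b j :=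
  ⟨regular_of_sep (sep_mat h), interpolation_of_sep (sep_mat h)⟩

end Pool.Agent.Results.MP_d6aa4f_al.CountableInterpolation
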