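import Pool.Agent.H128W.InjL

set_option autoImplicit false

/-! # MP_d6aa4f_al: the criterion for countably injective rings -/

namespace Pool.Agent.Results.MP_d6aa4f_al.CountablyInjective

open PowerSeries Pool.Agent.H128W

universe u

theorem result (A : Type u) [Ring A]
    (hJ : ∀ m, RightInj (Matrix (Fin m) (Fin m) A) ∨ LeftInj (Matrix (Fin m) (Fin m) A)) :
    wgldim A⟦X⟧ = 1 ↔ Nontrivial A ∧
      ∀ m, Reg (Matrix (Fin m) (Fin m) A) ∧ Interp (Matrix (Fin m) (Fin m) A) := by
  rw [wgldim_eq_one]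
  constructor
  · rintro ⟨h1, h2⟩
    constructor
    · by_contra hcon
      rw [not_nontrivial_iff_subsingleton] at hcon
      exact h2 dim_zero_of_subsingleton
    · exact fun m => ⟨regular_of_sep (sep_mat h1), interpolation_of_sep (sep_mat h1)⟩
  · rintro ⟨h1, h2⟩
    refine ⟨dim_le_one_of_sep fun m => ?_, not_dim_zero⟩
    rcases hJ m with h | h
    · exact fun f g hfg => sep_inj (h2 m).1 (h2 m).2 h f g hfg
    · exact fun f g hfg => sep_injL (h2 m).1 (h2 m).2 h f g hfg

end Pool.Agent.Results.MP_d6aa4f_al.CountablyInjective
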