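import Pool.Agent.H128W.Nec
import Pool.Agent.H128W.Suf
import Pool.Agent.H128W.Alg
import Pool.Agent.H128W.Union
import Pool.Agent.H128W.Idem

set_option autoImplicit false

/-! # MP_d6aa4f_al: rings whose power series ring has weak global dimension one, for small rings -/

namespace Pool.Agent.Results.MP_d6aa4f_al.SmallRings

open PowerSeries Pool.Agent.H128W

universe u v

theorem result (A : Type u) [Ring A]
    (hA : (¬ ∃ f : ℕ → A, (∀ n, f n * f n = f n) ∧ (∀ n, f n ≠ 0) ∧
        ∀ m n, m ≠ n → f m * f n = 0) ∨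
      Cardinal.mk {z : A // z * z = z} < Cardinal.continuum ∨
      (∃ (K : Type v) (_ : Field K) (_ : Algebra K A), Module.rank K A < Cardinal.continuum) ∨
      ∃ B : ℕ → Subring A, (∀ a, ∃ k, a ∈ B k) ∧
        ∀ k, IsNoetherianRing (B k) ∨ IsNoetherianRing (B k)ᵐᵒᵖ) :
    wgldim A⟦X⟧ = 1 ↔ Nontrivial A ∧ IsSemisimpleRing A := by
  rw [wgldim_eq_one]
  constructor
  · rintro ⟨h1, h2⟩
    constructor
    · by_contra hcon
      rw [not_nontrivial_iff_subsingleton] at hcon
      exact h2 dim_zero_of_subsingleton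
    · rcases hA with h | h | ⟨K, _, _, h⟩ | ⟨B, hB, hN⟩
      · exact semisimple_of_noidem h1 h
      · exact semisimple_of_idem h1 h
      · exact semisimple_of_rank h1 h
      · exact semisimple_of_union h1 B hB hN
  · rintro ⟨h1, h2⟩
    exact ⟨dim_le_one_of_semisimple, not_dim_zero⟩

end Pool.Agent.Results.MP_d6aa4f_al.SmallRings
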